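import Pool.Agent.LSF.FAsm

/-!
# MP_5c10f6_an, Q1: the length spectrum is generically injective on the moduli space

For every `d ≥ 2` there is a proper Zariski closed subset `E` of the moduli space `M_d` of rational
maps of degree `d`, defined over the rational numbers, such that a complex rational map `f` of
degree `d` whose class is not in `E` is determined by its length spectrum, among all complex
rational maps of degree `d`, up to conjugation by Moebius maps and complex conjugation of the
coefficients.
-/

namespace Pool.Agent.Results.MP_5c10f6_an.LengthModuli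

open Pool.Agent.LenSpec Pool.Agent.LSF

/-- the moduli space: the set of the classes of complex rational maps of degree `d` with respect
to conjugation by Moebius maps -/
def Md (d : ℕ) : Type := Quot (MobConj : RatMap ℂ d → RatMap ℂ d → Prop)

/-- the class of a rational map -/
def cls {d : ℕ} (f : RatMap ℂ d) : Md d := Quot.mk _ f

/-- `E` is Zariski closed in the moduli space and defined over the rational numbers: its preimage
in the space of the rational maps of degree `d` is the set of the common zeros of polynomials
with rational coefficients in the coefficients of the map -/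
def ClosedQ {d : ℕ} (E : Set (Md d)) : Prop :=
  ∃ S : Set (MvPolynomial (CI d) ℚ), ∀ f : RatMap ℂ d,
    cls f ∈ E ↔ ∀ V ∈ S, MvPolynomial.aeval f.coef V = 0

/-- conjugate maps are the maps with the same class -/
theorem cls_eq_iff {d : ℕ} (hd : 2 ≤ d) (f g : RatMap ℂ d) : cls f = cls g ↔ MobConj f g := by
  obtain ⟨hrefl, hsymm, htrans⟩ := MC2_holds ℂ d (by omega)
  have key : ∀ x y : RatMap ℂ d, Relation.EqvGen MobConj x y → MobConj x y := by
    intro x y h
    induction h with
    | rel _ _ h => exact h
    | refl x => exact hrefl x
    | symm _ _ _ ih => exact hsymm _ _ ih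
    | trans _ _ _ _ _ ih1 ih2 => exact htrans _ _ _ ih1 ih2
  exact ⟨fun h => key _ _ (Quot.eqvGen_exact h), fun h => Quot.sound h⟩

/-- Q1: outside of a proper Zariski closed subset of the moduli space, defined over the rational
numbers, the length spectrum determines the class of a map up to complex conjugation. -/
theorem result (d : ℕ) (hd : 2 ≤ d) :
    ∃ E : Set (Md d), E ≠ Set.univ ∧ ClosedQ E ∧
      ∀ f g : RatMap ℂ d, cls f ∉ E → (∀ n, 1 ≤ n → f.lenSpec n = g.lenSpec n) →
        cls g = cls f ∨ cls g.conj = cls f := by
  obtain ⟨S, ⟨f₀, hf₀⟩, hinv, -, hmain⟩ := FAsm.zfin d hd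
  have hq : ∀ f : RatMap ℂ d, cls f ∈ {x : Md d | ∀ f : RatMap ℂ d, cls f = x → ZS S f} ↔
      ZS S f := by
    intro f
    constructor
    · intro h
      exact h f rfl
    · intro h g hg
      exact (hinv g f ((cls_eq_iff hd g f).1 hg)).2 h
  refine ⟨{x : Md d | ∀ f : RatMap ℂ d, cls f = x → ZS S f}, ?_, ?_, ?_⟩
  · intro h
    exact hf₀ ((hq f₀).1 (h ▸ Set.mem_univ _))
  · exact ⟨(S : Set (MvPolynomial (CI d) ℚ)), fun f => (hq f).trans Iff.rfl⟩
  · intro f g hf hg
    rcases hmain f (fun h => hf ((hq f).2 h)) g hg with h | h
    · exact Or.inl ((cls_eq_iff hd f g).2 h).symm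
    · exact Or.inr ((cls_eq_iff hd f g.conj).2 h).symm

end Pool.Agent.Results.MP_5c10f6_an.LengthModuli
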